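import Mathlib
import Pool.Agent.Helper92.LV.Main

set_option autoImplicit false

/-!
# Isomorphisms between Leavitt path algebras are bounded (MP_181f94_al)

Every algebra isomorphism between the Leavitt path algebras of two finite strongly connected graphs
in which every vertex emits at least two edges is bounded with respect to the path algebras. This
applies to the graph `E_2` (one vertex, two loops) and to its Cuntz splice `E_{2-}`.
-/

namespace Pool.Agent.Results.MP_181f94_al.BoundedIsomorphisms

open Pool.Agent.Helper92 Pool.Agent.Helper92.LV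

universe u

/-- The graph `E_2` with one vertex and two loops. -/
def E2 : LV.Graph Unit (Fin 2) where
  s _ := ()
  r _ := ()

/-- The Cuntz splice of `G` at the vertex `u`: two new vertices `u₁ = inr 0`, `u₂ = inr 1` and six
new edges: a loop at `u₁`, a loop at `u₂`, and edges `u → u₁`, `u₁ → u`, `u₁ → u₂`, `u₂ → u₁`. -/
def cuntzSplice {V E : Type} (G : LV.Graph V E) (u : V) : LV.Graph (V ⊕ Fin 2) (E ⊕ Fin 6) where
  s := Sum.elim (fun e => Sum.inl (G.s e))
    ![Sum.inr 0, Sum.inr 1, Sum.inl u, Sum.inr 0, Sum.inr 0, Sum.inr 1]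
  r := Sum.elim (fun e => Sum.inl (G.r e))
    ![Sum.inr 0, Sum.inr 1, Sum.inr 0, Sum.inl u, Sum.inr 1, Sum.inr 0]

/-- The product in `L_k(G)` of a list of edges (it vanishes if the list is not a path). -/
noncomputable def edgeProd (k : Type u) [Field k] {V E : Type} [Fintype V] [Fintype E]
    [DecidableEq V] [DecidableEq E] (G : LV.Graph V E) (l : List E) : LPA k G :=
  (l.map fun e => gen k G (Gen.e e)).prod

/-- `φ : L_k(G) → L_k(G')` is bounded: for some `m`, `φ(kG)` times any product of `m` or more edges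
of `G'` lies in the path algebra `kG'`. -/
def Bounded (k : Type u) [Field k] {V E V' E' : Type} [Fintype V] [Fintype E]
    [DecidableEq V] [DecidableEq E] [Fintype V'] [Fintype E'] [DecidableEq V'] [DecidableEq E']
    (G : LV.Graph V E) (G' : LV.Graph V' E') (φ : LPA k G ≃ₐ[k] LPA k G') : Prop :=
  ∃ m : ℕ, ∀ x ∈ pathAlg k G, ∀ l : List E', m ≤ l.length →
    φ x * edgeProd k G' l ∈ pathAlg k G'

/-- Every `k`-algebra isomorphism between the Leavitt path algebras of two finite strongly
connected graphs in which every vertex emits at least two edges is bounded in both directions;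
`E_2` and its Cuntz splice `E_{2-}` are such graphs. -/
theorem result :
    (∀ (k : Type u) [Field k] (V E V' E' : Type) [Fintype V] [Fintype E]
      [DecidableEq V] [DecidableEq E] [Fintype V'] [Fintype E'] [DecidableEq V'] [DecidableEq E']
      (G : LV.Graph V E) (G' : LV.Graph V' E'),
      G.StronglyConnected → G.TwoOut → G'.StronglyConnected → G'.TwoOut →
      ∀ φ : LPA k G ≃ₐ[k] LPA k G', Bounded k G G' φ ∧ Bounded k G' G φ.symm) ∧
    (E2.StronglyConnected ∧ E2.TwoOut) ∧
    ((cuntzSplice E2 ()).StronglyConnected ∧ (cuntzSplice E2 ()).TwoOut) := by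
  refine ⟨?_, ⟨?_, ?_⟩, ?_, ?_⟩
  · intro k _ V E V' E' _ _ _ _ _ _ _ _ G G' hc hG hc' hG' φ
    exact ⟨bounded_iso k G' G hc' hG' hG φ, bounded_iso k G G' hc hG hG' φ.symm⟩
  · intro a b
    exact Graph.Reach.refl _
  · intro a
    exact ⟨0, 1, by decide, rfl, rfl⟩
  · set S := cuntzSplice E2 () with hS
    -- the vertices are `v = inl ()`, `u₁ = inr 0`, `u₂ = inr 1`
    have hsn : ∀ (a : Unit ⊕ Fin 2) (x : Fin 2 ⊕ Fin 6), S.Reach a (S.s x) → S.Reach a (S.r x) :=
      fun a x h => Graph.Reach.snoc a x h
    have key : ∀ a : Unit ⊕ Fin 2, S.Reach a (Sum.inr 0) → ∀ b, S.Reach a b := by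
      intro a h b
      rcases b with ⟨⟩ | b
      · exact hsn a (Sum.inr 3) h
      · fin_cases b
        · exact h
        · exact hsn a (Sum.inr 4) h
    intro a
    refine key a ?_
    rcases a with ⟨⟩ | a
    · exact hsn _ (Sum.inr 2) (Graph.Reach.refl _)
    · fin_cases a
      · exact Graph.Reach.refl _
      · exact hsn _ (Sum.inr 5) (Graph.Reach.refl _)
  · rintro (⟨⟩ | a)
    · exact ⟨Sum.inl 0, Sum.inl 1, by decide, rfl, rfl⟩
    · fin_cases a
      · exact ⟨Sum.inr 0, Sum.inr 3, by decide, rfl, rfl⟩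
      · exact ⟨Sum.inr 1, Sum.inr 5, by decide, rfl, rfl⟩

end Pool.Agent.Results.MP_181f94_al.BoundedIsomorphisms
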