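import Mathlib
import Pool.Agent.Helper92.LV.B
import Pool.Agent.Helper7.LL.Skew

set_option autoImplicit false

/-!
# L_2 and L_{2-}: each is a fixed ring and a skew group ring of the other under an automorphism of
order two
-/

namespace Pool.Agent.Results.MP_181f94_al.FixedRings

open Pool.Agent.Helper92 Pool.Agent.Helper92.LV Pool.Agent.Helper7.LL

universe u

/-- The Leavitt path algebra `L_2`. -/
abbrev L2 (k : Type u) [Field k] : Type u := LPA k E2

/-- The Leavitt path algebra `L_{2-}`. -/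
abbrev L2m (k : Type u) [Field k] : Type u := LPA k E2m

/-- `A` has an automorphism `θ` of order two with fixed ring isomorphic to `B` and with skew group
ring `A ⋊_θ ℤ/2` isomorphic to `B`. The skew group ring is described inside `B`: it is
`j(A) ⊕ j(A) t` with `t ^ 2 = 1` and `t j(a) t = j(θ(a))`. -/
def Linked (k : Type u) [Field k] (A B : Type u) [Ring A] [Algebra k A] [Ring B]
    [Algebra k B] : Prop :=
  ∃ θ : A ≃ₐ[k] A, (∀ a, θ (θ a) = a) ∧ (∃ a, θ a ≠ a) ∧
    (∃ i : B →ₐ[k] A, Function.Injective i ∧ ∀ a, θ a = a ↔ ∃ b, i b = a) ∧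
    ∃ (j : A →ₐ[k] B) (t : B), t * t = 1 ∧ (∀ a, t * j a * t = j (θ a)) ∧
      Function.Bijective (fun z : A × A => j z.1 + j z.2 * t)

/-- `A` has a non-trivial `ℤ/2`-grading `A = A₀ ⊕ A₁` with `A₀` isomorphic to `B`. -/
def GradedWith (k : Type u) [Field k] (A B : Type u) [Ring A] [Algebra k A] [Ring B]
    [Algebra k B] : Prop :=
  ∃ (A₀ : Subalgebra k A) (A₁ : Submodule k A), IsCompl (Subalgebra.toSubmodule A₀) A₁ ∧
    A₁ ≠ ⊥ ∧ (∀ a ∈ A₀, ∀ b ∈ A₁, a * b ∈ A₁ ∧ b * a ∈ A₁) ∧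
    (∀ a ∈ A₁, ∀ b ∈ A₁, a * b ∈ A₀) ∧ Nonempty (A₀ ≃ₐ[k] B)

lemma canon_v_ne (k : Type u) [Field k] {V E : Type} [Fintype V] [Fintype E] [DecidableEq V]
    [DecidableEq E] (G : LV.Graph V E) (hG : ∀ a : V, ∃ x : E, G.s x = a) (a : V) :
    (canon k G).v a ≠ 0 := by
  have h := canon_indep k G hG
  exact h.ne_zero (Pa.triv G a)

lemma L2_one_ne (k : Type u) [Field k] : (1 : L2 k) ≠ 0 := by
  have h := canon_v_ne k E2 (fun a => ⟨0, rfl⟩) ()
  have h3 := (canon k E2).one
  simp only [Finset.univ_unique, Finset.sum_singleton] at h3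
  rw [← h3]
  exact h

lemma v_ne (k : Type u) [Field k] : (canF k).v ≠ 0 := by
  refine canon_v_ne k E2m (fun a => ?_) (Sum.inl ())
  rcases a with a | a
  · exact ⟨Sum.inl 0, rfl⟩
  · fin_cases a
    · exact ⟨Sum.inr 0, rfl⟩
    · exact ⟨Sum.inr 1, rfl⟩

lemma A1_ne (k : Type u) [Field k] : A1 k ≠ ⊥ := by
  intro h
  have h1 := y1_A1 k
  rw [h, Submodule.mem_bot] at h1
  apply L2_one_ne k
  have h2 : (canA k).y' * ((canA k).y' * ((canA k).y * (canA k).y * (canA k).y')) *
      (canA k).y = 1 := by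
    simp only [mul_assoc, y'r, (canA k).yy]
  rw [← h2, h1, mul_zero, mul_zero, zero_mul]

/-- `σ` as an automorphism -/
noncomputable def sigmaE (k : Type u) [Field k] : L2m k ≃ₐ[k] L2m k :=
  AlgEquiv.ofAlgHom (sigma k) (sigma k) (sigma_sigma k) (sigma_sigma k)

lemma theta_comp (k : Type u) [Field k] : (theta k).comp (theta k) = AlgHom.id k (L2 k) := by
  apply AlgHom.ext
  intro a
  exact theta_theta k a

/-- `θ` as an automorphism -/
noncomputable def thetaE (k : Type u) [Field k] : L2 k ≃ₐ[k] L2 k :=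
  AlgEquiv.ofAlgHom (theta k) (theta k) (theta_comp k) (theta_comp k)

theorem linked1 (k : Type u) [Field k] : Linked k (L2m k) (L2 k) := by
  refine ⟨sigmaE k, sigma_sigma_apply k, ⟨(canF k).v, ?_⟩, ⟨iota k, iota_inj k, sigma_fixed k⟩,
    ((matIso (k := k) (canA k)).toAlgHom.comp (ppi k)), matIso (k := k) (canA k) flipM,
    ?_, ?_, ?_⟩
  · intro h
    have h1 : 1 - (canF k).v = (canF k).v := (sigma_v k).symm.trans h
    apply v_ne k
    have h2 := congrArg ((canF k).v * ·) h1
    simp only [mul_sub, mul_one, (canF k).vv, sub_self] at h2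
    exact h2.symm
  · rw [← map_mul, flipM_flipM, map_one]
  · intro a
    change matIso (k := k) (canA k) flipM * matIso (k := k) (canA k) (ppi k a) *
      matIso (k := k) (canA k) flipM = matIso (k := k) (canA k) (ppi k (sigma k a))
    rw [← map_mul, ← map_mul, flipM_ppi]
  · have h1 := (matIso (k := k) (canA k)).bijective.comp (ppi_bij k)
    have h2 : (fun z : L2m k × L2m k => ((matIso (k := k) (canA k)).toAlgHom.comp (ppi k)) z.1 +
        ((matIso (k := k) (canA k)).toAlgHom.comp (ppi k)) z.2 * matIso (k := k) (canA k) flipM) =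
        (matIso (k := k) (canA k)) ∘ (fun z : L2m k × L2m k => ppi k z.1 + ppi k z.2 * flipM) := by
      funext z
      change matIso (k := k) (canA k) (ppi k z.1) + matIso (k := k) (canA k) (ppi k z.2) *
        matIso (k := k) (canA k) flipM = matIso (k := k) (canA k) (ppi k z.1 + ppi k z.2 * flipM)
      rw [map_add, map_mul]
    rw [h2]
    exact h1

theorem graded (k : Type u) [Field k] : GradedWith k (L2 k) (L2m k) :=
  ⟨A0 k, A1 k, isCompl_A k, A1_ne k, fun _ ha _ hb => ⟨A01 k ha hb, A10 k hb ha⟩,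
    fun _ ha _ hb => A11 k ha hb, ⟨eEquiv k⟩⟩

theorem linked2 (k : Type u) [Field k] (h2 : (2 : k) ≠ 0) : Linked k (L2 k) (L2m k) := by
  refine ⟨thetaE k, theta_theta k, ?_, ⟨(A0 k).val.comp (eEquiv k).symm.toAlgHom, ?_, ?_⟩,
    iota k, tt k, tt_tt k, tt_conj k, iota_tt_bij k h2⟩
  · by_contra h
    push Not at h
    apply A1_ne k
    rw [eq_bot_iff]
    intro a ha
    have h3 : a ∈ A0 k := (theta_fixed k h2 a).mp (h a)
    rw [Submodule.mem_bot]
    exact disj k h3 ha
  · intro a b h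
    exact (eEquiv k).symm.injective (Subtype.ext h)
  · intro a
    constructor
    · intro h
      have h3 : a ∈ A0 k := (theta_fixed k h2 a).mp h
      refine ⟨eEquiv k ⟨a, h3⟩, ?_⟩
      change (((eEquiv k).symm (eEquiv k ⟨a, h3⟩) : A0 k) : L2 k) = a
      rw [AlgEquiv.symm_apply_apply]
    · rintro ⟨b, rfl⟩
      exact (theta_fixed k h2 _).mpr ((eEquiv k).symm b).2

/-- **Main theorem.** -/
theorem result (k : Type u) [Field k] :
    Linked k (L2m k) (L2 k) ∧ GradedWith k (L2 k) (L2m k) ∧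
      ((2 : k) ≠ 0 → Linked k (L2 k) (L2m k)) :=
  ⟨linked1 k, graded k, linked2 k⟩

end Pool.Agent.Results.MP_181f94_al.FixedRings
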