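import Mathlib
import Pool.Agent.Helper7.LL.Corr
import Pool.Agent.Helper7.LL.Io

set_option autoImplicit false

/-!
# L_2 and L_{2-} are isomorphic after a free product with any algebra that contains a copy of L_2
-/

namespace Pool.Agent.Results.MP_181f94_al.FreeStable

open Pool.Agent.Helper92 Pool.Agent.Helper92.LV Pool.Agent.Helper7.LL

universe u

/-- The Leavitt path algebra `L_2`. -/
abbrev L2 (k : Type u) [Field k] : Type u := LPA k E2

/-- The Leavitt path algebra `L_{2-}`. -/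
abbrev L2m (k : Type u) [Field k] : Type u := LPA k E2m

/-- families of L_2 in `S` are the units of `S`, once there is one -/
def unitLF {S : Type u} [Ring S] (B : LF S) : LF S ≃ Sˣ where
  toFun A :=
    { val := A.x * B.x' + A.y * B.y'
      inv := B.x * A.x' + B.y * A.y'
      val_inv := by
        have e : (A.x * B.x' + A.y * B.y') * (B.x * A.x' + B.y * A.y') =
          A.x * (B.x' * B.x) * A.x' + A.x * (B.x' * B.y) * A.y' +
          A.y * (B.y' * B.x) * A.x' + A.y * (B.y' * B.y) * A.y' := by noncomm_ring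
        rw [e, B.xx, B.xy, B.yx, B.yy]
        simpa using A.sum
      inv_val := by
        have e : (B.x * A.x' + B.y * A.y') * (A.x * B.x' + A.y * B.y') =
          B.x * (A.x' * A.x) * B.x' + B.x * (A.x' * A.y) * B.y' +
          B.y * (A.y' * A.x) * B.x' + B.y * (A.y' * A.y) * B.y' := by noncomm_ring
        rw [e, A.xx, A.xy, A.yx, A.yy]
        simpa using B.sum }
  invFun t :=
    { x := t.val * B.x
      x' := B.x' * t.inv
      y := t.val * B.y
      y' := B.y' * t.inv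
      xx := by rw [mul_assoc, ← mul_assoc t.inv, t.inv_val, one_mul, B.xx]
      yy := by rw [mul_assoc, ← mul_assoc t.inv, t.inv_val, one_mul, B.yy]
      xy := by rw [mul_assoc, ← mul_assoc t.inv, t.inv_val, one_mul, B.xy]
      yx := by rw [mul_assoc, ← mul_assoc t.inv, t.inv_val, one_mul, B.yx]
      sum := by
        have e : t.val * B.x * (B.x' * t.inv) + t.val * B.y * (B.y' * t.inv) =
          t.val * (B.x * B.x' + B.y * B.y') * t.inv := by noncomm_ring
        rw [e, B.sum, mul_one, t.val_inv] }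
  left_inv A := by
    apply LF.ext
    · change (A.x * B.x' + A.y * B.y') * B.x = A.x
      rw [add_mul, mul_assoc, mul_assoc, B.xx, B.yx]; simp
    · change B.x' * (B.x * A.x' + B.y * A.y') = A.x'
      rw [mul_add, ← mul_assoc, ← mul_assoc, B.xx, B.xy]; simp
    · change (A.x * B.x' + A.y * B.y') * B.y = A.y
      rw [add_mul, mul_assoc, mul_assoc, B.yy, B.xy]; simp
    · change B.y' * (B.x * A.x' + B.y * A.y') = A.y'
      rw [mul_add, ← mul_assoc, ← mul_assoc, B.yy, B.yx]; simp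
  right_inv t := by
    apply Units.ext
    change t.val * B.x * B.x' + t.val * B.y * B.y' = t.val
    rw [mul_assoc, mul_assoc, ← mul_add, B.sum, mul_one]

/-- A map `i : R → C` makes `C` a coproduct of `R` and `L_2` if and only if it makes `C` a
coproduct of `R` and `L_{2-}`. -/
def SameCoprods (k : Type u) [Field k] (R : Type u) [Ring R] [Algebra k R] : Prop :=
  ∀ (C : Type u) [Ring C] [Algebra k C] (i : R →ₐ[k] C),
    (∃ j : L2 k →ₐ[k] C, IsCoprod k R (L2 k) C i j) ↔
      ∃ j' : L2m k →ₐ[k] C, IsCoprod k R (L2m k) C i j'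

/-- `C` is a free product of `A` and `B` -/
def IsFreeProd (k : Type u) [Field k] (A B C : Type u) [Ring A] [Algebra k A] [Ring B]
    [Algebra k B] [Ring C] [Algebra k C] : Prop :=
  ∃ (i : A →ₐ[k] C) (j : B →ₐ[k] C), IsCoprod k A B C i j

/-- Any coproduct of `R` and `L_2` is isomorphic to any coproduct of `R` and `L_{2-}`, by an
isomorphism that is the identity on `R`. -/
def CoprodsIso (k : Type u) [Field k] (R : Type u) [Ring R] [Algebra k R] : Prop :=
  ∀ (C C' : Type u) [Ring C] [Algebra k C] [Ring C'] [Algebra k C'] (i : R →ₐ[k] C)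
    (j : L2 k →ₐ[k] C) (i' : R →ₐ[k] C') (j' : L2m k →ₐ[k] C'),
    IsCoprod k R (L2 k) C i j → IsCoprod k R (L2m k) C' i' j' →
      ∃ e : C ≃ₐ[k] C', ∀ r : R, e (i r) = i' r

theorem main1 (k : Type u) [Field k] (R : Type u) [Ring R] [Algebra k R]
    (h : Nonempty (L2 k →ₐ[k] R)) : CoprodsIso k R ∧ SameCoprods k R := by
  obtain ⟨φ⟩ := h
  have B : LF R := homLF φ
  refine ⟨?_, ?_⟩
  · intro C C' _ _ _ _ i j i' j' h1 h2
    obtain ⟨e, he, -⟩ := (coprod_from B i j h1).equiv h2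
    exact ⟨e, he⟩
  · intro C _ _ i
    exact ⟨fun ⟨j, hj⟩ => ⟨_, coprod_from B i j hj⟩, fun ⟨j, hj⟩ => ⟨_, coprod_to B i j hj⟩⟩

theorem main2 (k : Type u) [Field k] (C : Type u) [Ring C] [Algebra k C] :
    (IsFreeProd k (L2 k) (L2 k) C ↔ IsFreeProd k (L2 k) (L2m k) C) ∧
      (IsFreeProd k (L2 k) (L2m k) C ↔ IsFreeProd k (L2m k) (L2m k) C) := by
  have h0 : Nonempty (L2 k →ₐ[k] L2m k) := ⟨homLF.symm (io (homRF (AlgHom.id k (L2m k))))⟩
  have h1 := (main1 k (L2 k) ⟨AlgHom.id k _⟩).2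
  have h2 := (main1 k (L2m k) h0).2
  refine ⟨⟨?_, ?_⟩, ⟨?_, ?_⟩⟩
  · rintro ⟨i, j, hij⟩
    obtain ⟨j', h'⟩ := (h1 C i).mp ⟨j, hij⟩
    exact ⟨i, j', h'⟩
  · rintro ⟨i, j, hij⟩
    obtain ⟨j', h'⟩ := (h1 C i).mpr ⟨j, hij⟩
    exact ⟨i, j', h'⟩
  · rintro ⟨i, j, hij⟩
    obtain ⟨j', h'⟩ := (h2 C j).mp ⟨i, hij.symm⟩
    exact ⟨j, j', h'⟩
  · rintro ⟨i, j, hij⟩
    obtain ⟨j', h'⟩ := (h2 C i).mpr ⟨j, hij⟩
    exact ⟨j', i, h'.symm⟩

theorem main3 (k : Type u) [Field k] (S : Type u) [Ring S] [Algebra k S] :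
    Nonempty ((L2 k →ₐ[k] S) ≃ (L2m k →ₐ[k] S)) ∧
      (Nonempty (L2m k →ₐ[k] S) → Nonempty ((L2m k →ₐ[k] S) ≃ Sˣ)) := by
  refine ⟨?_, fun h => ?_⟩
  · by_cases h : Nonempty (L2 k →ₐ[k] S)
    · obtain ⟨φ⟩ := h
      exact ⟨(corr (homLF φ)).symm⟩
    · have h' : IsEmpty (L2m k →ₐ[k] S) :=
        ⟨fun φ => h ⟨homLF.symm (io (homRF φ))⟩⟩
      have h'' : IsEmpty (L2 k →ₐ[k] S) := not_nonempty_iff.mp h
      exact ⟨Equiv.equivOfIsEmpty _ _⟩
  · obtain ⟨φ⟩ := h
    have B : LF S := io (homRF φ)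
    exact ⟨(corr B).trans (homLF.trans (unitLF B))⟩

/-- **Main theorem.** (0) Coproducts of unital `k`-algebras exist.
(1) For every unital `k`-algebra `R` with a unital homomorphism `L_2 → R`, the coproduct of `R`
and `L_2` and the coproduct of `R` and `L_{2-}` are isomorphic by an isomorphism that is the
identity on `R`; a map `R → C` makes `C` a coproduct of `R` and `L_2` if and only if it makes `C`
a coproduct of `R` and `L_{2-}`.
(2) An algebra is a free product of two copies of `L_2` if and only if it is one of `L_2` and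
`L_{2-}`, if and only if it is one of two copies of `L_{2-}`.
(3) For every unital `k`-algebra `S`, there are as many homomorphisms `L_{2-} → S` as
`L_2 → S`, and if there is one then they are in bijection with the units of `S`. -/
theorem result (k : Type u) [Field k] :
    (∀ (A B : Type u) [Ring A] [Algebra k A] [Ring B] [Algebra k B],
      ∃ (C : Type u) (_ : Ring C) (_ : Algebra k C), IsFreeProd k A B C) ∧
    (∀ (R : Type u) [Ring R] [Algebra k R], Nonempty (L2 k →ₐ[k] R) →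
      CoprodsIso k R ∧ SameCoprods k R) ∧
    (∀ (C : Type u) [Ring C] [Algebra k C],
      (IsFreeProd k (L2 k) (L2 k) C ↔ IsFreeProd k (L2 k) (L2m k) C) ∧
      (IsFreeProd k (L2 k) (L2m k) C ↔ IsFreeProd k (L2m k) (L2m k) C)) ∧
    (∀ (S : Type u) [Ring S] [Algebra k S],
      Nonempty ((L2 k →ₐ[k] S) ≃ (L2m k →ₐ[k] S)) ∧
      (Nonempty (L2m k →ₐ[k] S) → Nonempty ((L2m k →ₐ[k] S) ≃ Sˣ))) :=
  ⟨fun A B _ _ _ _ => ⟨FP k A B, inferInstance, inferInstance, inlF k A B, inrF k A B,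
    isCoprod_FP k A B⟩, fun R _ _ => main1 k R, fun C _ _ => main2 k C,
    fun S _ _ => main3 k S⟩

end Pool.Agent.Results.MP_181f94_al.FreeStable
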