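import Mathlib
import Pool.Agent.Helper99.SI.Fin
import Pool.Agent.Helper42.SI.M_CEN

set_option autoImplicit false

/-!
# The Leavitt path algebras L_2 and L_{2-} are not isomorphic as rings with involution (MP_181f94_al)

Let k be a field with involution which has an involution preserving embedding into the complex
numbers (for instance k = ℂ with complex conjugation, or ℝ or ℚ with the identity), and let
L_k(G) have its standard involution (v* = v, e* = the ghost edge of e). If L_k(E_n), n ≥ 2 (one
vertex, n loops), and L_k(G) are isomorphic as rings with involution, where G is a finite strongly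
connected graph with at least two edges out of every vertex and nonsingular adjacency matrix A,
then det (1 - A) ≤ 0. In particular L_k(E_2) and L_k(E_{2-}) are not isomorphic as rings with
involution.
-/

namespace Pool.Agent.Results.MP_181f94_al.NoStarIsomorphism

open Pool.Agent.Helper92 Pool.Agent.Helper92.LV Pool.Agent.Helper99.SI

universe u

/-- The adjacency matrix of a finite graph: the entry at (a, b) is the number of edges from a
to b. -/
def adj {V E : Type} [Fintype E] [DecidableEq V] (G : LV.Graph V E) : Matrix V V ℤ :=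
  fun a b => ((Finset.univ.filter fun x : E => G.s x = a ∧ G.r x = b).card : ℤ)

/-- The Cuntz splice of G at the vertex u: two new vertices u₁ = inr 0, u₂ = inr 1 and six new
edges: a loop at u₁, a loop at u₂, and edges u → u₁, u₁ → u, u₁ → u₂, u₂ → u₁. -/
def cuntzSplice {V E : Type} (G : LV.Graph V E) (u : V) : LV.Graph (V ⊕ Fin 2) (E ⊕ Fin 6) where
  s := Sum.elim (fun e => Sum.inl (G.s e))
    ![Sum.inr 0, Sum.inr 1, Sum.inl u, Sum.inr 0, Sum.inr 0, Sum.inr 1]
  r := Sum.elim (fun e => Sum.inl (G.r e))
    ![Sum.inr 0, Sum.inr 1, Sum.inr 0, Sum.inl u, Sum.inr 1, Sum.inr 0]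

/-- The graph E_n with one vertex and n loops. -/
def En (n : ℕ) : LV.Graph Unit (Fin n) where
  s _ := ()
  r _ := ()

/-- σ is the standard involution of L_k(G), where k is a field with the involution τ: additive,
antimultiplicative, τ on k, σ(v) = v for vertices, and σ interchanges every edge with its ghost
edge. -/
structure IsStdInvolution (k : Type u) [Field k] (τ : k →+* k) {V E : Type} [Fintype V]
    [Fintype E] [DecidableEq V] [DecidableEq E] (G : LV.Graph V E) (σ : LPA k G → LPA k G) :
    Prop where
  add : ∀ x y, σ (x + y) = σ x + σ y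
  mul : ∀ x y, σ (x * y) = σ y * σ x
  scalar : ∀ c : k, σ (algebraMap k (LPA k G) c) = algebraMap k (LPA k G) (τ c)
  vertex : ∀ a : V, σ (gen k G (Gen.v a)) = gen k G (Gen.v a)
  edge : ∀ e : E, σ (gen k G (Gen.e e)) = gen k G (Gen.g e)
  ghost : ∀ e : E, σ (gen k G (Gen.g e)) = gen k G (Gen.e e)

/-- L_k(G) and L_k(G'), with their standard involutions (extending the involution τ of k), are
isomorphic as rings with involution. -/
def StarIsomorphic (k : Type u) [Field k] (τ : k →+* k) {V E V' E' : Type} [Fintype V] [Fintype E]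
    [DecidableEq V] [DecidableEq E] [Fintype V'] [Fintype E'] [DecidableEq V'] [DecidableEq E']
    (G : LV.Graph V E) (G' : LV.Graph V' E') : Prop :=
  ∃ (φ : LPA k G ≃+* LPA k G') (σ : LPA k G → LPA k G) (σ' : LPA k G' → LPA k G'),
    IsStdInvolution k τ G σ ∧ IsStdInvolution k τ G' σ' ∧ ∀ y, φ (σ y) = σ' (φ y)

section

variable {k : Type u} [Field k] {V E : Type} [Fintype V] [Fintype E] [DecidableEq V]
  [DecidableEq E]

/-- The star ring structure of a field given by an involution. -/
@[instance_reducible] def starOf (τ : k →+* k) (hτ : ∀ a, τ (τ a) = a) : StarRing k where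
  star := τ
  star_involutive := hτ
  star_mul a b := by rw [map_mul, mul_comm]
  star_add := map_add τ

lemma std_unique (τ : k →+* k) (G : LV.Graph V E) {σ σ' : LPA k G → LPA k G}
    (h : IsStdInvolution k τ G σ) (h' : IsStdInvolution k τ G σ') : σ = σ' := by
  funext y
  have hmem : y ∈ Algebra.adjoin k (Set.range (canon k G).v ∪ Set.range (canon k G).e ∪
      Set.range (canon k G).g) := by
    rw [show Algebra.adjoin k (Set.range (canon k G).v ∪ Set.range (canon k G).e ∪
      Set.range (canon k G).g) = ⊤ from canon_gens k G]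
    trivial
  induction hmem using Algebra.adjoin_induction with
  | mem x hx =>
    rcases hx with (⟨a, rfl⟩ | ⟨a, rfl⟩) | ⟨a, rfl⟩
    · exact (h.vertex a).trans (h'.vertex a).symm
    · exact (h.edge a).trans (h'.edge a).symm
    · exact (h.ghost a).trans (h'.ghost a).symm
  | algebraMap c => rw [h.scalar, h'.scalar]
  | add x y _ _ hx hy => rw [h.add, h'.add, hx, hy]
  | mul x y _ _ hx hy => rw [h.mul, h'.mul, hx, hy]

lemma std_star (τ : k →+* k) (hτ : ∀ a, τ (τ a) = a) (G : LV.Graph V E) :
    letI := starOf τ hτ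
    IsStdInvolution k τ G (fun y => star y) := by
  letI := starOf τ hτ
  exact
    { add := star_add
      mul := star_mul
      scalar := fun c => star_alg G c
      vertex := fun a => star_gen k G (Gen.v a)
      edge := fun e => star_gen k G (Gen.e e)
      ghost := fun e => star_gen k G (Gen.g e) }

end

lemma adjm_eq {V E : Type} [Fintype E] [DecidableEq V] (G : LV.Graph V E) :
    adjm G = (adj G).map (Int.castRingHom ℝ) := by
  ext a b
  simp [adjm, adj]

lemma det_adjm {V E : Type} [Fintype V] [Fintype E] [DecidableEq V] (G : LV.Graph V E) :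
    (adjm G).det = ((adj G).det : ℝ) := by
  rw [adjm_eq]
  exact (RingHom.map_det (Int.castRingHom ℝ) (adj G)).symm

lemma det_one_sub {V E : Type} [Fintype V] [Fintype E] [DecidableEq V] (G : LV.Graph V E) :
    (1 - adjm G).det = ((1 - adj G).det : ℝ) := by
  have h : (1 - adjm G) = (Int.castRingHom ℝ).mapMatrix (1 - adj G) := by
    rw [map_sub, map_one, adjm_eq]
    rfl
  rw [h]
  exact (RingHom.map_det (Int.castRingHom ℝ) (1 - adj G)).symm

/-- The main theorem. -/
theorem result :
    -- every field k with involution τ: the standard involution exists and is unique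
    (∀ (k : Type u) [Field k] (τ : k →+* k), (∀ a, τ (τ a) = a) →
      ∀ (V E : Type) [Fintype V] [Fintype E] [DecidableEq V] [DecidableEq E]
        (G : LV.Graph V E), ∃! σ, IsStdInvolution k τ G σ) ∧
    -- the sign theorem
    (∀ (k : Type u) [Field k] (τ : k →+* k) (ι : k →+* ℂ), (∀ a, ι (τ a) = starRingEnd ℂ (ι a)) →
      ∀ (n : ℕ) (V E : Type) [Fintype V] [Fintype E] [DecidableEq V] [DecidableEq E]
        (G : LV.Graph V E), 2 ≤ n → G.StronglyConnected → G.TwoOut → (adj G).det ≠ 0 →
        0 < (1 - adj G).det → ¬ StarIsomorphic k τ (En n) G) ∧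
    -- L_2 and L_{2-}
    (∀ (k : Type u) [Field k] (τ : k →+* k) (ι : k →+* ℂ), (∀ a, ι (τ a) = starRingEnd ℂ (ι a)) →
      ¬ StarIsomorphic k τ (En 2) (cuntzSplice (En 2) ())) := by
  have key : ∀ (k : Type u) [Field k] (τ : k →+* k) (ι : k →+* ℂ),
      (∀ a, ι (τ a) = starRingEnd ℂ (ι a)) →
      ∀ (n : ℕ) (V E : Type) [Fintype V] [Fintype E] [DecidableEq V] [DecidableEq E]
        (G : LV.Graph V E), 2 ≤ n → G.StronglyConnected → G.TwoOut → (adj G).det ≠ 0 →
        0 < (1 - adj G).det → ¬ StarIsomorphic k τ (En n) G := by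
    rintro k _ τ ι hι n V E _ _ _ _ G hn hsc hto hdet hpos ⟨φ, σ, σ', hσ, hσ', h⟩
    have hτ : ∀ a, τ (τ a) = a := fun a => by
      apply ι.injective
      rw [hι, hι]
      exact star_star (ι a)
    letI := starOf τ hτ
    refine no_star_ring_iso Helper42.SI.hCEN k ι hι n V E G hn hsc hto ?_ ?_ ⟨φ, fun y => ?_⟩
    · rw [det_adjm]
      exact_mod_cast hdet
    · rw [det_one_sub]
      exact_mod_cast hpos
    · have h1 : (fun y : LPA k (En n) => star y) = σ := std_unique τ _ (std_star τ hτ _) hσ
      have h2 : (fun y : LPA k G => star y) = σ' := std_unique τ _ (std_star τ hτ _) hσ'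
      have h3 : star y = σ y := congrFun h1 y
      have h4 : star (φ y) = σ' (φ y) := congrFun h2 (φ y)
      exact (congrArg φ h3).trans ((h y).trans h4.symm)
  refine ⟨fun k _ τ hτ V E _ _ _ _ G => ?_, key,
    fun k _ τ ι hι => key k τ ι hι 2 _ _ _ le_rfl ?_ ?_ ?_ ?_⟩
  · letI := starOf τ hτ
    exact ⟨fun y => star y, std_star τ hτ G, fun σ h => std_unique τ G h (std_star τ hτ G)⟩
  · set S := cuntzSplice (En 2) () with hS
    have hsn : ∀ (a : Unit ⊕ Fin 2) (x : Fin 2 ⊕ Fin 6), S.Reach a (S.s x) → S.Reach a (S.r x) :=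
      fun a x h => Graph.Reach.snoc a x h
    have key : ∀ a : Unit ⊕ Fin 2, S.Reach a (Sum.inr 0) → ∀ b, S.Reach a b := by
      intro a h b
      rcases b with ⟨⟩ | b
      · exact hsn a (Sum.inr 3) h
      · fin_cases b
        · exact h
        · exact hsn a (Sum.inr 4) h
    intro a
    refine key a ?_
    rcases a with ⟨⟩ | a
    · exact hsn _ (Sum.inr 2) (Graph.Reach.refl _)
    · fin_cases a
      · exact Graph.Reach.refl _
      · exact hsn _ (Sum.inr 5) (Graph.Reach.refl _)
  · rintro (⟨⟩ | a)
    · exact ⟨Sum.inl 0, Sum.inl 1, by decide, rfl, rfl⟩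
    · fin_cases a
      · exact ⟨Sum.inr 0, Sum.inr 3, by decide, rfl, rfl⟩
      · exact ⟨Sum.inr 1, Sum.inr 5, by decide, rfl, rfl⟩
  · decide
  · decide

end Pool.Agent.Results.MP_181f94_al.NoStarIsomorphism
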